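import Pool.Agent.W425.SG.Defs
import Pool.Agent.W655.SM.C3

set_option autoImplicit false

/-! Part C3 of the project on polynomials with arbitrary support. -/

namespace Pool.Agent.W349.SG

open MvPolynomial Pool.Agent.H628R4.TZ Pool.Agent.H628R4.TP Pool.Agent.W425.SM Pool.Agent.W425.SL
  Pool.Agent.W425.SG
open MeasureTheory Set Filter Topology
open Pool.Agent.W655.SM (ar ymap_rhoHat cL cL_apply pos_meas kp kp_pos wt_cone cone_val sum_form
  ord_le reg_coord reg_disj cone_li)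

variable {r N : ℕ}

open Classical in
/-- the exponents in the affine span of `J` -/
noncomputable def AJ (v : Fin r → Fin N → ℕ) (J : Finset (Fin r)) : Finset (Fin r) :=
  Finset.univ.filter fun l => ∃ c, Comb v J l c

lemma mem_AJ (v : Fin r → Fin N → ℕ) (J : Finset (Fin r)) (l : Fin r) :
    l ∈ AJ v J ↔ ∃ c, Comb v J l c := by
  classical
  unfold AJ
  simp

lemma ymap_comb (v : Fin r → Fin N → ℕ) (J : Finset (Fin r)) (l : Fin r) (c : Fin r → ℚ)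
    (hc : Comb v J l c) (x : Fin (N+1) → ℝ) :
    ∑ j, (c j : ℝ) * ymap v x j = ymap v x l := by
  obtain ⟨-, h1, h2⟩ := hc
  unfold ymap
  simp only [mul_sub, Finset.sum_sub_distrib, Finset.mul_sum]
  rw [Finset.sum_comm, ← Finset.sum_mul]
  have h3 : (∑ j, (c j : ℝ)) = 1 := by exact_mod_cast congrArg (Rat.cast : ℚ → ℝ) h1
  rw [h3, one_mul]
  congr 1
  refine Finset.sum_congr rfl fun i _ => ?_
  have h4 : ∑ j, (c j : ℝ) * (v j i : ℝ) = (v l i : ℝ) := by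
    exact_mod_cast congrArg (Rat.cast : ℚ → ℝ) (h2 i)
  rw [← h4, Finset.sum_mul]
  exact Finset.sum_congr rfl fun j _ => by ring

lemma ymap_zero (v : Fin r → Fin N → ℕ) (J : Finset (Fin r)) (l : Fin r) (hl : l ∈ AJ v J)
    (x : Fin (N+1) → ℝ) (hx : ∀ j ∈ J, ymap v x j = 0) : ymap v x l = 0 := by
  obtain ⟨c, hc⟩ := (mem_AJ v J l).1 hl
  rw [← ymap_comb v J l c hc x]
  refine Finset.sum_eq_zero fun j _ => ?_
  by_cases hj : j ∈ J
  · rw [hx j hj, mul_zero]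
  · rw [hc.1 j hj]; simp

lemma sub_AJ (v : Fin r → Fin N → ℕ) (J : Finset (Fin r)) : J ⊆ AJ v J := by
  classical
  intro l hl
  rw [mem_AJ]
  refine ⟨Pi.single l 1, fun j hj => ?_, ?_, fun i => ?_⟩
  · rw [Pi.single_apply, if_neg]
    rintro rfl
    exact hj hl
  · simp
  · simp [Pi.single_apply]

lemma mem_min (v : Fin r → Fin N → ℕ) (σ : Finset (Fin N → ℕ)) (j : Fin r) :
    j ∈ minSet v σ ↔ ∀ ρ ∈ σ, ymap v (rhoHat v ρ) j = 0 := by
  rw [minSet, Finset.mem_filter]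
  constructor
  · rintro ⟨-, h⟩ ρ hρ
    rw [ymap_rhoHat, h ρ hρ, sub_self]
  · intro h
    refine ⟨Finset.mem_univ _, fun ρ hρ => ?_⟩
    have := h ρ hρ
    rw [ymap_rhoHat, sub_eq_zero] at this
    exact_mod_cast this

lemma AJ_sub (v : Fin r → Fin N → ℕ) (J : Finset (Fin r)) (σ : Finset (Fin N → ℕ))
    (hJ : J ⊆ minSet v σ) : AJ v J ⊆ minSet v σ := by
  intro l hl
  rw [mem_min]
  intro ρ hρ
  exact ymap_zero v J l hl _ fun j hj => (mem_min v σ j).1 (hJ hj) ρ hρ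

lemma cone_liQ (R : SmoothFan N) (σ : Finset (Fin N → ℕ)) (hσ : σ ∈ R.cones) :
    LinearIndependent ℚ (fun ρ : σ => (fun l => ((ρ : Fin N → ℕ) l : ℚ) : Fin N → ℚ)) := by
  obtain ⟨B, hB, hρ⟩ := R.smooth σ hσ
  choose f hf using fun ρ : σ => hρ ρ ρ.2
  have h1 : LinearIndependent ℚ (fun i => (fun l => (B i l : ℚ) : Fin N → ℚ)) := by
    have h2 : IsUnit (B.map (fun z : ℤ => (z : ℚ))) := by
      rw [Matrix.isUnit_iff_isUnit_det]
      have h3 : (B.map (fun z : ℤ => (z : ℚ))).det = ((B.det : ℤ) : ℚ) := by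
        rw [show ((B.det : ℤ) : ℚ) = (Int.castRingHom ℚ) B.det from rfl, RingHom.map_det]
        rfl
      rw [h3]
      exact hB.map (Int.castRingHom ℚ)
    exact Matrix.linearIndependent_rows_iff_isUnit.2 h2
  have hinj : Function.Injective f := by
    intro ρ ρ' h
    refine Subtype.ext (funext fun l => ?_)
    have h3 := hf ρ l
    rw [h, hf ρ' l] at h3
    exact_mod_cast h3.symm
  have h4 := h1.comp f hinj
  have h5 : (fun ρ : σ => (fun l => ((ρ : Fin N → ℕ) l : ℚ) : Fin N → ℚ)) =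
      (fun i => (fun l => (B i l : ℚ) : Fin N → ℚ)) ∘ f := by
    funext ρ l
    simp only [Function.comp_apply]
    rw [hf ρ l]
    simp
  rw [h5]
  exact h4

/-- the lift of a ray over `ℚ` -/
noncomputable def qh (v : Fin r → Fin N → ℕ) (ρ : Fin N → ℕ) : Fin (N+1) → ℚ :=
  Fin.cons (ordAlong v ρ : ℚ) (fun l => (ρ l : ℚ))

/-- the linear forms over `ℚ` -/
noncomputable def fq (v : Fin r → Fin N → ℕ) (j : Fin r) : Module.Dual ℚ (Fin (N+1) → ℚ) :=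
  ∑ i, (v j i : ℚ) • LinearMap.proj (R := ℚ) (φ := fun _ => ℚ) (Fin.succ i) -
    LinearMap.proj (R := ℚ) (φ := fun _ => ℚ) 0

lemma fq_apply (v : Fin r → Fin N → ℕ) (j : Fin r) (x : Fin (N+1) → ℚ) :
    fq v j x = ∑ i, (v j i : ℚ) * x (Fin.succ i) - x 0 := by
  simp [fq]

lemma fq_qh (v : Fin r → Fin N → ℕ) (j : Fin r) (ρ : Fin N → ℕ) :
    fq v j (qh v ρ) = ((∑ l, ρ l * v j l : ℕ) : ℚ) - (ordAlong v ρ : ℚ) := by
  rw [fq_apply]
  unfold qh
  simp only [Fin.cons_succ, Fin.cons_zero]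
  congr 1
  push_cast
  exact Finset.sum_congr rfl fun l _ => mul_comm _ _

lemma min_sub_AJ (v : Fin r → Fin N → ℕ) (R : SmoothFan N) (J : Finset (Fin r)) (hI : IndJ v J)
    (σ : Finset (Fin N → ℕ)) (hσ : σ ∈ R.cones) (hJ : J ⊆ minSet v σ)
    (hcard : σ.card + J.card = N + 1) : minSet v σ ⊆ AJ v J := by
  classical
  intro l hl
  rw [mem_AJ]
  set U : Submodule ℚ (Fin (N+1) → ℚ) :=
    Submodule.span ℚ (Set.range (fun ρ : σ => qh v (ρ : Fin N → ℕ))) with hU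
  have hqli : LinearIndependent ℚ (fun ρ : σ => qh v (ρ : Fin N → ℕ)) := by
    refine LinearIndependent.of_comp (LinearMap.funLeft ℚ ℚ Fin.succ) ?_
    exact cone_liQ R σ hσ
  have hUr : Module.finrank ℚ U = σ.card := by
    rw [hU, finrank_span_eq_card hqli, Fintype.card_coe]
  have hWr : Module.finrank ℚ U.dualAnnihilator = J.card := by
    have h := Subspace.finrank_add_finrank_dualAnnihilator_eq U
    rw [hUr, Module.finrank_fin_fun] at h
    omega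
  have hmem : ∀ j ∈ minSet v σ, fq v j ∈ U.dualAnnihilator := by
    intro j hj
    rw [Submodule.mem_dualAnnihilator]
    intro w hw
    have hle : U ≤ LinearMap.ker (fq v j) := by
      rw [hU, Submodule.span_le]
      rintro _ ⟨ρ, rfl⟩
      show fq v j (qh v (ρ : Fin N → ℕ)) = 0
      rw [fq_qh]
      rw [minSet, Finset.mem_filter] at hj
      rw [hj.2 ρ ρ.2, sub_self]
    exact hle hw
  have hfe : ∀ (g : J → ℚ) (x : Fin (N+1) → ℚ), (∑ j, g j • fq v (j : Fin r)) x =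
      ∑ j, g j * (∑ i, (v (j : Fin r) i : ℚ) * x (Fin.succ i) - x 0) := by
    intro g x
    rw [LinearMap.sum_apply]
    refine Finset.sum_congr rfl fun j _ => ?_
    rw [LinearMap.smul_apply, fq_apply, smul_eq_mul]
  have hli : LinearIndependent ℚ (fun j : J => fq v (j : Fin r)) := by
    rw [Fintype.linearIndependent_iff]
    intro g hg
    have h0 : ∑ j, g j = 0 := by
      have h := congrArg (fun F : Module.Dual ℚ (Fin (N+1) → ℚ) => F (Pi.single 0 1)) hg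
      simp only [hfe, LinearMap.zero_apply] at h
      simpa using h
    have h1 : ∑ j, g j • (fun i => (v (j : Fin r) i : ℚ) : Fin N → ℚ) = 0 := by
      funext i
      have h := congrArg (fun F : Module.Dual ℚ (Fin (N+1) → ℚ) => F (Pi.single (Fin.succ i) 1)) hg
      simp only [hfe, LinearMap.zero_apply] at h
      simpa [Pi.single_apply] using h
    have h2 := (affineIndependent_iff.1 hI) Finset.univ g h0 h1
    exact fun j => h2 j (Finset.mem_univ _)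
  let b : J → U.dualAnnihilator := fun j => ⟨fq v (j : Fin r), hmem j (hJ j.2)⟩
  have hbli : LinearIndependent ℚ b := by
    refine LinearIndependent.of_comp (Submodule.subtype _) ?_
    exact hli
  have hspan := hbli.span_eq_top_of_card_eq_finrank' (by rw [hWr, Fintype.card_coe])
  have hlm : (⟨fq v l, hmem l hl⟩ : U.dualAnnihilator) ∈ Submodule.span ℚ (Set.range b) := by
    rw [hspan]; trivial
  obtain ⟨g, hg⟩ := (Submodule.mem_span_range_iff_exists_fun ℚ).1 hlm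
  have hg' : ∑ j, g j • fq v (j : Fin r) = fq v l := by
    have := congrArg (Submodule.subtype _) hg
    rw [map_sum] at this
    exact this
  refine ⟨fun j => if h : j ∈ J then g ⟨j, h⟩ else 0, fun j hj => by simp [hj], ?_, fun i => ?_⟩
  · have h := congrArg (fun F : Module.Dual ℚ (Fin (N+1) → ℚ) => F (Pi.single 0 1)) hg'
    simp only [hfe, fq_apply] at h
    have h2 : ∑ j, g j = 1 := by simpa using h
    rw [← h2, ← Finset.sum_subset (Finset.subset_univ J), ← Finset.sum_coe_sort J]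
    · exact Finset.sum_congr rfl fun j _ => by simp
    · intro j _ hj
      simp [hj]
  · have h := congrArg (fun F : Module.Dual ℚ (Fin (N+1) → ℚ) => F (Pi.single (Fin.succ i) 1)) hg'
    simp only [hfe, fq_apply] at h
    have h2 : ∑ j : J, g j * (v (j : Fin r) i : ℚ) = (v l i : ℚ) := by
      simpa [Pi.single_apply] using h
    rw [← h2, ← Finset.sum_subset (Finset.subset_univ J), ← Finset.sum_coe_sort J]
    · exact Finset.sum_congr rfl fun j _ => by simp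
    · intro j _ hj
      simp [hj]

lemma ar_spec (v : Fin r → Fin N → ℕ) {J : Finset (Fin r)} {d : ℕ}
    (Θ : ((J → ℝ) × (Fin d → ℝ)) ≃ₗ[ℝ] (Fin (N+1) → ℝ)) {κ : ℝ} (hA : Adapt v J d Θ κ)
    (σ : Finset (Fin N → ℕ)) (hJ : J ⊆ minSet v σ) (ρ : Fin N → ℕ) (hρ : ρ ∈ σ) :
    Θ (0, ar v Θ ρ) = rhoHat v ρ := by
  have h1 : Θ.symm (rhoHat v ρ) = (0, ar v Θ ρ) := by
    refine Prod.ext ?_ rfl
    funext j
    have h2 := hA.y (Θ.symm (rhoHat v ρ)).1 (Θ.symm (rhoHat v ρ)).2 j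
    have h3 : Θ ((Θ.symm (rhoHat v ρ)).1, (Θ.symm (rhoHat v ρ)).2) = rhoHat v ρ :=
      Θ.apply_symm_apply _
    rw [h3, (mem_min v σ j).1 (hJ j.2) ρ hρ] at h2
    rw [← h2]
    simp
  rw [← h1, Θ.apply_symm_apply]

lemma cL_Θ (v : Fin r → Fin N → ℕ) {J : Finset (Fin r)} {d : ℕ}
    (Θ : ((J → ℝ) × (Fin d → ℝ)) ≃ₗ[ℝ] (Fin (N+1) → ℝ)) {κ : ℝ} (hA : Adapt v J d Θ κ)
    (σ : Finset (Fin N → ℕ)) (hJ : J ⊆ minSet v σ) (c : σ → ℝ) :
    Θ (0, cL v Θ σ c) = ∑ ρ : σ, c ρ • rhoHat v ρ := by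
  have h1 : ((0 : J → ℝ), cL v Θ σ c) = ∑ ρ : σ, c ρ • ((0 : J → ℝ), ar v Θ (ρ : Fin N → ℕ)) := by
    refine Prod.ext ?_ ?_
    · simp [Prod.fst_sum]
    · rw [Prod.snd_sum, cL_apply]
      exact Finset.sum_congr rfl fun ρ _ => rfl
  rw [h1, map_sum]
  refine Finset.sum_congr rfl fun ρ _ => ?_
  rw [map_smul, ar_spec v Θ hA σ hJ ρ ρ.2]

lemma ar_li (v : Fin r → Fin N → ℕ) (R : SmoothFan N) {J : Finset (Fin r)} {d : ℕ}
    (Θ : ((J → ℝ) × (Fin d → ℝ)) ≃ₗ[ℝ] (Fin (N+1) → ℝ)) {κ : ℝ} (hA : Adapt v J d Θ κ)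
    (σ : Finset (Fin N → ℕ)) (hσ : σ ∈ R.cones) (hJ : J ⊆ minSet v σ) :
    LinearIndependent ℝ (fun ρ : σ => ar v Θ (ρ : Fin N → ℕ)) := by
  let T : (Fin d → ℝ) →ₗ[ℝ] (Fin N → ℝ) :=
    (LinearMap.funLeft ℝ ℝ Fin.succ) ∘ₗ Θ.toLinearMap ∘ₗ (LinearMap.inr ℝ (J → ℝ) (Fin d → ℝ))
  refine LinearIndependent.of_comp T ?_
  have h1 : (T ∘ fun ρ : σ => ar v Θ (ρ : Fin N → ℕ)) =
      (fun ρ : σ => (fun l => ((ρ : Fin N → ℕ) l : ℝ) : Fin N → ℝ)) := by
    funext ρ l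
    show Θ (0, ar v Θ (ρ : Fin N → ℕ)) (Fin.succ l) = _
    rw [ar_spec v Θ hA σ hJ ρ ρ.2]
    simp [rhoHat]
  rw [h1]
  exact cone_li R σ hσ

lemma card_le (v : Fin r → Fin N → ℕ) (R : SmoothFan N) {J : Finset (Fin r)} {d : ℕ}
    (Θ : ((J → ℝ) × (Fin d → ℝ)) ≃ₗ[ℝ] (Fin (N+1) → ℝ)) {κ : ℝ} (hA : Adapt v J d Θ κ)
    (σ : Finset (Fin N → ℕ)) (hσ : σ ∈ R.cones) (hJ : J ⊆ minSet v σ) : σ.card ≤ d := by
  have h := (ar_li v R Θ hA σ hσ hJ).fintype_card_le_finrank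
  simpa using h

lemma cL_inj (v : Fin r → Fin N → ℕ) (R : SmoothFan N) {J : Finset (Fin r)} {d : ℕ}
    (Θ : ((J → ℝ) × (Fin d → ℝ)) ≃ₗ[ℝ] (Fin (N+1) → ℝ)) {κ : ℝ} (hA : Adapt v J d Θ κ)
    (σ : Finset (Fin N → ℕ)) (hσ : σ ∈ R.cones) (hJ : J ⊆ minSet v σ) :
    Function.Injective (cL v Θ σ) :=
  (ar_li v R Θ hA σ hσ hJ).fintypeLinearCombination_injective

lemma reg_eq (v : Fin r → Fin N → ℕ) {J : Finset (Fin r)} {d : ℕ}
    (Θ : ((J → ℝ) × (Fin d → ℝ)) ≃ₗ[ℝ] (Fin (N+1) → ℝ)) {κ : ℝ} (hA : Adapt v J d Θ κ)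
    (σ : Finset (Fin N → ℕ)) (hJ : J ⊆ minSet v σ) :
    reg v Θ σ = cL v Θ σ '' {c | ∀ ρ, 0 < c ρ} := by
  classical
  ext a
  constructor
  · rintro ⟨c, hc, h⟩
    refine ⟨fun ρ => c ρ, fun ρ => hc ρ ρ.2, ?_⟩
    have h1 : Θ (0, a) = Θ (0, cL v Θ σ (fun ρ => c ρ)) := by
      rw [cL_Θ v Θ hA σ hJ, h]
      exact (Finset.sum_coe_sort σ (fun ρ => c ρ • rhoHat v ρ)).symm
    have h2 := Θ.injective h1
    exact (congrArg Prod.snd h2).symm
  · rintro ⟨c, hc, rfl⟩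
    refine ⟨fun ρ => if h : ρ ∈ σ then c ⟨ρ, h⟩ else 0, fun ρ hρ => by simp only [hρ, dif_pos]; exact hc _, ?_⟩
    rw [cL_Θ v Θ hA σ hJ]
    rw [← Finset.sum_coe_sort σ]
    refine Finset.sum_congr rfl fun ρ _ => ?_
    simp

lemma reg_meas (v : Fin r → Fin N → ℕ) (R : SmoothFan N) {J : Finset (Fin r)} {d : ℕ}
    (Θ : ((J → ℝ) × (Fin d → ℝ)) ≃ₗ[ℝ] (Fin (N+1) → ℝ)) {κ : ℝ} (hA : Adapt v J d Θ κ)
    (σ : Finset (Fin N → ℕ)) (hσ : σ ∈ R.cones) (hJ : J ⊆ minSet v σ) :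
    MeasurableSet (reg v Θ σ) := by
  rw [reg_eq v Θ hA σ hJ]
  exact (pos_meas σ).image_of_continuousOn_injOn
    (LinearMap.continuous_of_finiteDimensional _).continuousOn (cL_inj v R Θ hA σ hσ hJ).injOn

lemma reg_null (v : Fin r → Fin N → ℕ) {J : Finset (Fin r)} {d : ℕ}
    (Θ : ((J → ℝ) × (Fin d → ℝ)) ≃ₗ[ℝ] (Fin (N+1) → ℝ)) {κ : ℝ} (hA : Adapt v J d Θ κ)
    (σ : Finset (Fin N → ℕ)) (hJ : J ⊆ minSet v σ) (hd : σ.card < d) :
    volume (reg v Θ σ) = 0 := by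
  rw [reg_eq v Θ hA σ hJ]
  have h1 : LinearMap.range (cL v Θ σ) ≠ ⊤ := by
    intro h
    have h2 := LinearMap.finrank_range_le (cL v Θ σ)
    rw [h, finrank_top] at h2
    simp at h2
    omega
  refine measure_mono_null ?_ (Measure.addHaar_submodule volume _ h1)
  rintro _ ⟨c, _, rfl⟩
  exact ⟨c, rfl⟩

/-- the condition of `limGH` -/
def Cond (v : Fin r → Fin N → ℕ) (α : ℝ) (J : Finset (Fin r)) (x : Fin (N+1) → ℝ) : Prop :=
  0 < x 0 ∧ (∀ i : Fin N, 0 < x i.succ ∨ (0 < α ∧ x i.succ = 0)) ∧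
    (∀ l, (∀ c, ¬ Comb v J l c) → 0 < ymap v x l)

/-- the cones which contribute -/
def PC (v : Fin r → Fin N → ℕ) (α : ℝ) (J : Finset (Fin r)) (σ : Finset (Fin N → ℕ)) : Prop :=
  minSet v σ = AJ v J ∧ Inc α σ ∧ ∃ ρ ∈ σ, ordAlong v ρ ≠ 0

lemma PC.sub {v : Fin r → Fin N → ℕ} {α : ℝ} {J : Finset (Fin r)} {σ : Finset (Fin N → ℕ)}
    (h : PC v α J σ) : J ⊆ minSet v σ := by
  rw [h.1]; exact sub_AJ v J

lemma cond_of_reg (v : Fin r → Fin N → ℕ) {J : Finset (Fin r)} {d : ℕ}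
    (Θ : ((J → ℝ) × (Fin d → ℝ)) ≃ₗ[ℝ] (Fin (N+1) → ℝ)) (α : ℝ)
    (σ : Finset (Fin N → ℕ)) (hP : PC v α J σ) (a : Fin d → ℝ) (ha : a ∈ reg v Θ σ) :
    Cond v α J (Θ (0, a)) := by
  obtain ⟨c, hc, h0, h⟩ := reg_coord v Θ σ a ha
  obtain ⟨hJ, hI, ρ0, hρ0, ho⟩ := hP
  refine ⟨?_, fun i => ?_, fun j hj => ?_⟩
  · rw [h0]
    refine Finset.sum_pos' (fun ρ hρ => mul_nonneg (hc ρ hρ).le (Nat.cast_nonneg _)) ⟨ρ0, hρ0, ?_⟩
    exact mul_pos (hc ρ0 hρ0) (by exact_mod_cast Nat.pos_of_ne_zero ho)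
  · have h1 : 0 ≤ Θ (0, a) i.succ := by
      rw [h]
      exact Finset.sum_nonneg fun ρ hρ => mul_nonneg (hc ρ hρ).le (Nat.cast_nonneg _)
    rcases hI with hα | hI
    · rcases h1.lt_or_eq with h2 | h2
      · exact Or.inl h2
      · exact Or.inr ⟨hα, h2.symm⟩
    · left
      obtain ⟨ρ1, hρ1, h3⟩ := hI i
      rw [h]
      refine Finset.sum_pos' (fun ρ hρ => mul_nonneg (hc ρ hρ).le (Nat.cast_nonneg _)) ⟨ρ1, hρ1, ?_⟩
      exact mul_pos (hc ρ1 hρ1) (by exact_mod_cast Nat.pos_of_ne_zero h3)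
  · have hj' : j ∉ minSet v σ := by
      rw [hJ, mem_AJ]
      rintro ⟨c, hc⟩
      exact hj c hc
    unfold ymap
    rw [sum_form v σ c (fun l => Θ (0, a) l.succ) h j, h0, ← Finset.sum_sub_distrib]
    rw [minSet, Finset.mem_filter] at hj'
    push Not at hj'
    obtain ⟨ρ1, hρ1, h3⟩ := hj' (Finset.mem_univ j)
    refine Finset.sum_pos' (fun ρ hρ => ?_) ⟨ρ1, hρ1, ?_⟩
    · rw [← mul_sub]
      refine mul_nonneg (hc ρ hρ).le (sub_nonneg.2 ?_)
      exact_mod_cast ord_le v ρ j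
    · rw [← mul_sub]
      refine mul_pos (hc ρ1 hρ1) (sub_pos.2 ?_)
      exact_mod_cast lt_of_le_of_ne (ord_le v ρ1 j) (Ne.symm h3)

lemma reg_of_cond [NeZero r] (v : Fin r → Fin N → ℕ) (R : SmoothFan N) (hPr : Principal v R)
    {J : Finset (Fin r)} (hJ : J.Nonempty) {d : ℕ}
    (Θ : ((J → ℝ) × (Fin d → ℝ)) ≃ₗ[ℝ] (Fin (N+1) → ℝ)) {κ : ℝ} (hA : Adapt v J d Θ κ) (α : ℝ)
    (a : Fin d → ℝ) (h : Cond v α J (Θ (0, a))) :
    ∃ σ ∈ R.cones, PC v α J σ ∧ a ∈ reg v Θ σ := by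
  obtain ⟨h0, h1, h2⟩ := h
  have hnn : ∀ l : Fin N, 0 ≤ Θ (0, a) l.succ := by
    intro l
    rcases h1 l with h | h
    · exact h.le
    · exact h.2.symm.le
  obtain ⟨σ, ⟨hσ, y, hy, hw⟩, -⟩ := R.partition (fun l => Θ (0, a) l.succ) hnn
  obtain ⟨j1, hj1⟩ := hPr σ hσ
  have hord : ∀ ρ ∈ σ, ordAlong v ρ = ∑ l, ρ l * v j1 l := fun ρ hρ => ord_eq ρ j1 (hj1 ρ hρ)
  have hf := sum_form v σ y (fun l => Θ (0, a) l.succ) hw
  have hge : ∀ j, ∑ ρ ∈ σ, y ρ * (ordAlong v ρ : ℝ) ≤ ∑ i, (v j i : ℝ) * Θ (0, a) i.succ := by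
    intro j
    rw [hf j]
    refine Finset.sum_le_sum fun ρ hρ => mul_le_mul_of_nonneg_left ?_ (hy ρ hρ).le
    exact_mod_cast ord_le v ρ j
  have heq : ∀ j, j ∈ minSet v σ ↔
      ∑ i, (v j i : ℝ) * Θ (0, a) i.succ = ∑ ρ ∈ σ, y ρ * (ordAlong v ρ : ℝ) := by
    intro j
    rw [hf j, minSet, Finset.mem_filter]
    constructor
    · rintro ⟨-, h⟩
      exact Finset.sum_congr rfl fun ρ hρ => by rw [h ρ hρ]
    · intro h
      refine ⟨Finset.mem_univ j, fun ρ hρ => ?_⟩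
      have h3 : ∑ ρ ∈ σ, y ρ * (((∑ l, ρ l * v j l : ℕ) : ℝ) - (ordAlong v ρ : ℝ)) = 0 := by
        simp only [mul_sub, Finset.sum_sub_distrib]
        rw [h, sub_self]
      have h4 := (Finset.sum_eq_zero_iff_of_nonneg (fun ρ hρ => mul_nonneg (hy ρ hρ).le
        (sub_nonneg.2 (by exact_mod_cast ord_le v ρ j)))).1 h3 ρ hρ
      rcases mul_eq_zero.1 h4 with h5 | h5
      · exact absurd h5 (hy ρ hρ).ne'
      · have h6 := sub_eq_zero.1 h5
        exact_mod_cast h6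
  have hyJ : ∀ j ∈ J, ymap v (Θ (0, a)) j = 0 := by
    intro j hj
    have h3 := hA.y 0 a ⟨j, hj⟩
    simpa using h3
  have hx0 : ∀ j ∈ AJ v J, ∑ i, (v j i : ℝ) * Θ (0, a) i.succ = Θ (0, a) 0 := by
    intro j hj
    have h3 := ymap_zero v J j hj (Θ (0, a)) hyJ
    unfold ymap at h3
    linarith
  have hx1 : ∀ j ∉ AJ v J, Θ (0, a) 0 < ∑ i, (v j i : ℝ) * Θ (0, a) i.succ := by
    intro j hj
    have h3 := h2 j (fun c hc => hj ((mem_AJ v J j).2 ⟨c, hc⟩))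
    unfold ymap at h3
    linarith
  have hm1 : j1 ∈ minSet v σ := by
    rw [minSet, Finset.mem_filter]
    exact ⟨Finset.mem_univ _, fun ρ hρ => (hord ρ hρ).symm⟩
  have hm : Θ (0, a) 0 = ∑ ρ ∈ σ, y ρ * (ordAlong v ρ : ℝ) := by
    refine le_antisymm ?_ ?_
    · rw [← (heq j1).1 hm1]
      by_cases hj : j1 ∈ AJ v J
      · exact (hx0 j1 hj).symm.le
      · exact (hx1 j1 hj).le
    · obtain ⟨j2, hj2⟩ := hJ
      rw [← hx0 j2 (sub_AJ v J hj2)]
      exact hge j2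
  refine ⟨σ, hσ, ⟨?_, ?_, ?_⟩, y, hy, ?_⟩
  · ext j
    rw [heq j, ← hm]
    constructor
    · intro h
      by_contra hj
      exact absurd h (hx1 j hj).ne'
    · exact hx0 j
  · by_cases hα : 0 < α
    · exact Or.inl hα
    · refine Or.inr fun l => ?_
      by_contra hcon
      push Not at hcon
      have h3 : Θ (0, a) l.succ = 0 := by
        have h4 : Θ (0, a) l.succ = ∑ ρ ∈ σ, y ρ * (ρ l : ℝ) := hw l
        rw [h4]
        exact Finset.sum_eq_zero fun ρ hρ => by rw [hcon ρ hρ]; simp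
      rcases h1 l with h | h
      · exact absurd h3 h.ne'
      · exact hα h.1
  · by_contra hcon
    push Not at hcon
    have h3 : Θ (0, a) 0 = 0 := by
      rw [hm]
      exact Finset.sum_eq_zero fun ρ hρ => by rw [hcon ρ hρ]; simp
    exact absurd h3 h0.ne'
  · funext i
    refine Fin.cases ?_ (fun l => ?_) i
    · rw [hm]; simp [rhoHat]
    · have h4 : Θ (0, a) l.succ = ∑ ρ ∈ σ, y ρ * (ρ l : ℝ) := hw l
      rw [h4]; simp [rhoHat]

open Classical in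
lemma limG_eq [NeZero r] (v : Fin r → Fin N → ℕ) (R : SmoothFan N) (hPr : Principal v R)
    {J : Finset (Fin r)} (hJ : J.Nonempty) {d : ℕ}
    (Θ : ((J → ℝ) × (Fin d → ℝ)) ≃ₗ[ℝ] (Fin (N+1) → ℝ)) {κ : ℝ} (hA : Adapt v J d Θ κ)
    (θ : Fin r → ℝ) (hAdm : Adm v θ J) (α s : ℝ)
    (a : Fin d → ℝ) : limGH v θ α s J (Θ (0, a)) =
      ∑ σ ∈ R.cones.filter (PC v α J),
        (reg v Θ σ).indicator (fun a => wt (lm (N := N) s) (Θ (0, a))) a := by
  have h0 : limGH v θ α s J (Θ (0, a)) =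
      if Cond v α J (Θ (0, a)) then wt (lm (N := N) s) (Θ (0, a)) else 0 := by
    unfold limGH
    refine if_congr ?_ rfl rfl
    unfold Cond
    constructor
    · rintro ⟨h1, h2, h3, -⟩; exact ⟨h1, h2, h3⟩
    · rintro ⟨h1, h2, h3⟩; exact ⟨h1, h2, h3, hAdm⟩
  rw [h0]
  split_ifs with h
  · obtain ⟨σ, hσ, hP, ha⟩ := reg_of_cond v R hPr hJ Θ hA α a h
    rw [Finset.sum_eq_single_of_mem σ (Finset.mem_filter.2 ⟨hσ, hP⟩), Set.indicator_of_mem ha]
    intro σ' hσ' hne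
    rw [Set.indicator_of_notMem]
    intro ha'
    exact hne (reg_disj v R Θ σ' σ (Finset.mem_filter.1 hσ').1 hσ a ha' ha)
  · symm
    refine Finset.sum_eq_zero fun σ hσ => ?_
    rw [Set.indicator_of_notMem]
    intro ha
    exact h (cond_of_reg v Θ α σ (Finset.mem_filter.1 hσ).2 a ha)

theorem taskC3 : Pool.Agent.W425.SG.TaskC3 := by
  classical
  intro r N _ v R hPr θ α s hα hs J hI hJ d Θ κ hA hF hidx
  by_cases hAdm : Adm v θ J
  swap
  · have h1 : ∀ a, limGH v θ α s J (Θ (0, a)) = 0 := by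
      intro a
      unfold limGH
      rw [if_neg]
      rintro ⟨-, -, -, h⟩
      exact hAdm h
    simp only [h1, integral_zero, mul_zero]
    symm
    unfold limJH
    refine Finset.sum_eq_zero fun σ _ => ?_
    rw [if_neg]
    rintro ⟨-, -, -, -, h⟩
    exact hAdm h
  have hdim := hA.dim
  have hidx' : (idx v J : ℂ) ≠ 0 := by exact_mod_cast hidx
  have hval : ∀ σ ∈ R.cones, J ⊆ minSet v σ → σ.card + J.card = N + 1 →
      (κ : ℂ) * ∫ a in reg v Θ σ, wt (lm (N := N) s) (Θ (0, a)) =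
      (idx v J : ℂ)⁻¹ * ∏ ρ ∈ σ, ((ordAlong v ρ : ℂ) * s + ((∑ l, ρ l : ℕ) : ℂ))⁻¹ := by
    intro σ hσ h1 h2
    have h3 := hF σ hσ h1 h2 (wt (lm (N := N) s))
    rw [cone_val v R s hs σ hσ] at h3
    rw [← h3]
    field_simp
  have hint : ∀ σ ∈ R.cones.filter (PC v α J), Integrable
      ((reg v Θ σ).indicator (fun a => wt (lm (N := N) s) (Θ (0, a)))) := by
    intro σ hσ
    obtain ⟨hσ, hP⟩ := Finset.mem_filter.1 hσ
    rw [integrable_indicator_iff (reg_meas v R Θ hA σ hσ hP.sub)]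
    have hle := card_le v R Θ hA σ hσ hP.sub
    rcases hle.lt_or_eq with hlt | heq
    · rw [IntegrableOn, Measure.restrict_eq_zero.2 (reg_null v Θ hA σ hP.sub hlt)]
      exact integrable_zero_measure
    · by_contra hcon
      have h3 := hval σ hσ hP.sub (by omega)
      rw [integral_undef hcon, mul_zero] at h3
      have h4 : (idx v J : ℂ)⁻¹ * ∏ ρ ∈ σ, ((ordAlong v ρ : ℂ) * s + ((∑ l, ρ l : ℕ) : ℂ))⁻¹ ≠ 0 := by
        refine mul_ne_zero (inv_ne_zero hidx') (Finset.prod_ne_zero_iff.2 fun ρ hρ => inv_ne_zero ?_)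
        have h5 : (ordAlong v ρ : ℂ) * s + ((∑ l, ρ l : ℕ) : ℂ) = ((kp v s ρ : ℝ) : ℂ) := by
          unfold kp; push_cast; rfl
        rw [h5]
        exact_mod_cast (kp_pos v R s hs σ hσ ρ hρ).ne'
      exact h4 h3.symm
  simp only [limG_eq v R hPr hJ Θ hA θ hAdm α s]
  rw [integral_finsetSum _ hint, Finset.mul_sum, Finset.sum_filter]
  unfold limJH
  refine Finset.sum_congr rfl fun σ hσ => ?_
  by_cases hP : PC v α J σ
  · rw [if_pos hP, integral_indicator (reg_meas v R Θ hA σ hσ hP.sub)]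
    have hle := card_le v R Θ hA σ hσ hP.sub
    rcases hle.lt_or_eq with hlt | heq
    · rw [if_neg (fun h => by have := h.2.1; omega),
        Measure.restrict_eq_zero.2 (reg_null v Θ hA σ hP.sub hlt), integral_zero_measure, mul_zero]
    · rw [if_pos ⟨hP.sub, by omega, hP.2.1, hP.2.2, hAdm⟩]
      exact hval σ hσ hP.sub (by omega)
  · rw [if_neg hP, if_neg]
    rintro ⟨h1, h2, h3, h4, -⟩
    exact hP ⟨Finset.Subset.antisymm (min_sub_AJ v R J hI σ hσ h1 h2) (AJ_sub v J σ h1), h3, h4⟩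

end Pool.Agent.W349.SG
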